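import Pool.Agent.Results.MP_383f58_co.FlagPseudoUpper
import Pool.Agent.Y330.FP.A5

/-!
# Flag 3-dimensional pseudomanifolds with almost cubically many facets

Flag `(2m-1)`-dimensional pseudomanifolds on `n` vertices can have `n ^ (ex m - o(1))` facets,
`ex m = max (⌊3m/2⌋, log (2m)! / log (2m))`, while the join `J_m(n)` of `m` cycles has at most
`n ^ m`, and every pseudomanifold of this dimension has at most `n ^ (2m-1)`. For `m = 2` the
exponent `3` is best possible, and `ex m / (2m) → 1`. For `m = 2` the facets are parallelograms with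
prescribed sides and diagonals in a discrete torus of high dimension: three vertices of such a
parallelogram determine the fourth one.
-/

set_option autoImplicit false

namespace Pool.Agent.Results.MP_383f58_co.NearCubic

open Pool.Agent.H372R3

/-- The exponent: the maximum of `⌊3m/2⌋` and `log (2m)! / log (2m)`. -/
noncomputable def ex (m : ℕ) : ℝ :=
  max ((3 * m / 2 : ℕ) : ℝ) (Real.log ((2 * m).factorial : ℝ) / Real.log (2 * m))

theorem result :
    (∀ m : ℕ, 2 ≤ m → ∀ ε : ℝ, 0 < ε → ∃ n₀ : ℕ, ∀ n ≥ n₀,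
      (∃ a : Fin m → ℕ, IsBalanced m n a) ∧
      ∃ (V : Type) (_ : Fintype V) (K : AbstractSimplicialComplex V),
        Fintype.card V = n ∧ IsFlag K ∧ IsPseudomanifold (2 * m - 1) K ∧
        (n : ℝ) ^ (ex m - ε) ≤ (faceNum K (2 * m - 1) : ℝ) ∧
        ∀ a : Fin m → ℕ, IsBalanced m n a →
          (n : ℝ) ^ (ex m - m - ε) * (faceNum (joinOfCycles a) (2 * m - 1) : ℝ) ≤
            (faceNum K (2 * m - 1) : ℝ)) ∧
    (∀ m : ℕ, 2 ≤ m → ∀ (V : Type) [Fintype V] (K : AbstractSimplicialComplex V),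
      IsPseudomanifold (2 * m - 1) K → faceNum K (2 * m - 1) ≤ Fintype.card V ^ (2 * m - 1)) ∧
    (∀ m : ℕ, 2 ≤ m → 2 * (m : ℝ) * (1 - 1 / Real.log (2 * m)) ≤ ex m) := by
  refine ⟨?_, ?_, ?_⟩
  · intro m hm ε hε
    obtain ⟨n₀, hn₀⟩ := Pool.Agent.Y330.FP.big_max m hm ε hε
    refine ⟨max n₀ (m + 1), fun n hn => ⟨FlagPseudoUpper.exists_balanced m n (by omega), ?_⟩⟩
    obtain ⟨V, i1, i2, i3, G, hG1, hG2, hG3⟩ := hn₀ n (le_trans (le_max_left _ _) hn)
    have hmn : m + 1 ≤ n := le_trans (le_max_right _ _) hn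
    have hG3' : (n : ℝ) ^ (ex m - ε) ≤ (Pool.Agent.Y330.FP.fac (2 * m) G : ℝ) := hG3
    have hfn : faceNum (cliqueCx G) (2 * m - 1) = Pool.Agent.Y330.FP.fac (2 * m) G := by
      rw [Pool.Agent.Y330.FP.faceNum_cliqueCx, show 2 * m - 1 + 1 = 2 * m by omega]
    refine ⟨V, i1, cliqueCx G, hG1, isFlag_cliqueCx G, ?_, ?_, ?_⟩
    · apply isPseudomanifold_cliqueCx (by omega)
      rw [show 2 * m - 1 + 1 = 2 * m by omega]
      exact hG2
    · rw [hfn]; exact hG3'
    · intro a ha
      rw [hfn]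
      refine le_trans ?_ hG3'
      have ha0 : ∀ i, a i ≠ 0 := by
        intro i
        have hpos : 0 < ⌊(n : ℚ) / m⌋₊ := by
          rw [Nat.floor_div_eq_div]
          exact Nat.div_pos (by omega) (by omega)
        have h2 : ⌊(n : ℚ) / m⌋₊ ≤ ⌈(n : ℚ) / m⌉₊ := Nat.floor_le_ceil _
        rcases ha.1 i with h | h <;> omega
      have hale : ∀ i, a i ≤ n := by
        intro i
        rw [← ha.2]
        exact Finset.single_le_sum (f := a) (fun _ _ => Nat.zero_le _) (Finset.mem_univ i)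
      have h1 := faceNum_joinOfCycles_le (by omega) a ha0
      have h2 : ∏ i, a i ≤ n ^ m := by
        calc ∏ i, a i ≤ ∏ _i : Fin m, n := Finset.prod_le_prod' (fun i _ => hale i)
          _ = n ^ m := by simp
      have h3 : (faceNum (joinOfCycles a) (2 * m - 1) : ℝ) ≤ (n : ℝ) ^ m := by
        exact_mod_cast h1.trans h2
      have hn0 : (0 : ℝ) < n := by
        have : 0 < n := by omega
        exact_mod_cast this
      calc (n : ℝ) ^ (ex m - m - ε) * (faceNum (joinOfCycles a) (2 * m - 1) : ℝ)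
          ≤ (n : ℝ) ^ (ex m - m - ε) * (n : ℝ) ^ m :=
            mul_le_mul_of_nonneg_left h3 (Real.rpow_nonneg hn0.le _)
        _ = (n : ℝ) ^ (ex m - ε) := by
            rw [← Real.rpow_natCast (n : ℝ) m, ← Real.rpow_add hn0]
            congr 1
            ring
  · intro m hm V _ K hK
    exact Pool.Agent.Y330.FP.facets_le (by omega) K hK
  · intro m hm
    exact (Pool.Agent.Y330.FP.log_fact_ge m hm).trans (le_max_right _ _)

end Pool.Agent.Results.MP_383f58_co.NearCubic
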